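import Pool.Agent.H13HS.BicGeo

set_option autoImplicit false

/-!
# Isospectral bicentric quadrilaterals are congruent

A quadrilateral is bicentric if its vertices lie on a circle and its sides are tangent to a circle.

Proof: the heat invariants give the area, the perimeter and the sum of `1 / α` over the angles `α`,
and for a circumscribed polygon the first two determine the sum of `cot (α / 2)`.  The opposite
angles of a quadrilateral inscribed in a circle are supplementary.  For a supplementary pair `α`,
`π - α` the partial fractions of the cotangent give `cot (α / 2) + cot ((π - α) / 2)` as a function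
of `w = α (π - α)`, and each pair of terms is strictly monotone in the product `w w'` for two
supplementary pairs if `1 / w + 1 / w'` is fixed.  So the two pairs of angles are determined.
-/

open Set Complex
open Pool.Agent.W780.PG (IsConvexPolygon region ang lft)
open Pool.Agent.W703.GP (Isospectral)

namespace Pool.Agent.Results.MP_5b0138_an.BicentricQuadrilaterals

/-- The polygon with the successive vertices `p 0, p 1, …` is circumscribed about a circle, with
centre `o` and radius `r > 0`: the distance of `o` to the line through any two successive vertices
is `r` (`lft a b o` is the product of `‖b - a‖` and the distance of `o` to the line from `a` to `b`,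
with the sign `+` if `o` lies to the left of it). -/
def IsCircumscribed {n : ℕ} (p : Fin (n + 3) → ℂ) : Prop :=
  ∃ (o : ℂ) (r : ℝ), 0 < r ∧ ∀ i, lft (p i) (p (i + 1)) o = r * ‖p (i + 1) - p i‖

/-- The vertices lie on a circle. -/
def IsInscribed {n : ℕ} (p : Fin (n + 3) → ℂ) : Prop :=
  ∃ (o : ℂ) (r : ℝ), ∀ i, ‖p i - o‖ = r

/-- Isospectral bicentric quadrilaterals (`n + 3 = 4` vertices) are congruent. -/
theorem result (p q : Fin (1 + 3) → ℂ) (hp : IsConvexPolygon p) (hq : IsConvexPolygon q)
    (hpc : IsCircumscribed p) (hqc : IsCircumscribed q) (hpi : IsInscribed p)
    (hqi : IsInscribed q) (h : Isospectral (region p) (region q)) :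
    ∃ φ : ℂ ≃ᵢ ℂ, φ '' region p = region q :=
  Pool.Agent.H13HS.Bic.quad hp hq hpc hqc hpi hqi h

end Pool.Agent.Results.MP_5b0138_an.BicentricQuadrilaterals
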