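import Pool.Agent.H13HS.Fin

set_option autoImplicit false

/-!
# Circumscribed polygons with a rotational symmetry and at most three orbits of vertices

Two isospectral convex polygons which are circumscribed about circles, have a rotational symmetry of
the same order `k` and at most `3 k` vertices are congruent.  For `k = 1` these are the triangles,
for `k = 2` the rhombi and the centrally symmetric hexagons circumscribed about a circle, for
`k = 3` the regular triangle, and certain hexagons and nonagons.

Proof: the heat invariants determine the sum over one period of the angles `α`, of `1 / α` and of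
`cot (α / 2)`.  By the partial fractions of the cotangent the last sum is strictly monotone in the
product of the (at most three) angles of a period if the first two are fixed.
-/

open Set Complex
open Pool.Agent.W780.PG (IsConvexPolygon region ang lft)
open Pool.Agent.W703.GP (Isospectral)

namespace Pool.Agent.Results.MP_5b0138_an.CircumscribedRotation

/-- The polygon with the successive vertices `p 0, p 1, …` is circumscribed about a circle, with
centre `o` and radius `r > 0`: the distance of `o` to the line through any two successive vertices
is `r` (`lft a b o` is the product of `‖b - a‖` and the distance of `o` to the line from `a` to `b`,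
with the sign `+` if `o` lies to the left of it). -/
def IsCircumscribed {n : ℕ} (p : Fin (n + 3) → ℂ) : Prop :=
  ∃ (o : ℂ) (r : ℝ), 0 < r ∧ ∀ i, lft (p i) (p (i + 1)) o = r * ‖p (i + 1) - p i‖

/-- The set `Ω` is mapped onto itself by the rotation by the angle `2 π / k` about some point. -/
def HasRotation (k : ℕ) (Ω : Set ℂ) : Prop :=
  ∃ c : ℂ, (fun z => c + exp (2 * Real.pi * I / k) * (z - c)) '' Ω = Ω

theorem result (k : ℕ) (hk : 0 < k) (n m : ℕ) (p : Fin (n + 3) → ℂ) (q : Fin (m + 3) → ℂ)
    (hp : IsConvexPolygon p) (hq : IsConvexPolygon q) (hp' : IsCircumscribed p)
    (hq' : IsCircumscribed q) (hpk : HasRotation k (region p)) (hqk : HasRotation k (region q))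
    (hn : n + 3 ≤ 3 * k) (hm : m + 3 ≤ 3 * k) (h : Isospectral (region p) (region q)) :
    ∃ φ : ℂ ≃ᵢ ℂ, φ '' region p = region q :=
  Pool.Agent.H13HS.main hk hp hq hp' hq' hpk hqk hn hm h

end Pool.Agent.Results.MP_5b0138_an.CircumscribedRotation
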