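import Pool.Agent.H13HS.Orb

set_option autoImplicit false

/-!
# Circumscribed polygons with a rotational symmetry and equal angles except at one orbit of vertices

Let `P` be a convex polygon circumscribed about a circle and mapped onto itself by the rotation
`ρ` by `2 π / k` about a point `c`, all whose angles are equal to `α`, except perhaps those at one
orbit of vertices under `ρ`, where they are at least `α`.  Then `P` is determined by its Dirichlet
spectrum, up to congruence, among ALL convex polygons (circumscribed or not) that have a rotational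
symmetry of order `k`.

For `k = 2` this says in particular: a centrally symmetric convex polygon which is isospectral to a
rhombus is congruent to that rhombus.  For `k = 1` it is a theorem of Enciso and Gómez-Serrano.
-/

open Set Complex
open Pool.Agent.W780.PG (IsConvexPolygon region ang lft)
open Pool.Agent.W703.GP (Isospectral)

namespace Pool.Agent.Results.MP_5b0138_an.RotationOneOrbit

/-- The polygon with the successive vertices `p 0, p 1, …` is circumscribed about a circle, with
centre `o` and radius `r > 0`: the distance of `o` to the line through any two successive vertices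
is `r` (`lft a b o` is the product of `‖b - a‖` and the distance of `o` to the line from `a` to `b`,
with the sign `+` if `o` lies to the left of it). -/
def IsCircumscribed {n : ℕ} (p : Fin (n + 3) → ℂ) : Prop :=
  ∃ (o : ℂ) (r : ℝ), 0 < r ∧ ∀ i, lft (p i) (p (i + 1)) o = r * ‖p (i + 1) - p i‖

/-- The rotation by the angle `2 π / k` about the point `c`. -/
noncomputable def rotation (k : ℕ) (c z : ℂ) : ℂ := c + exp (2 * Real.pi * I / k) * (z - c)

theorem result (k : ℕ) (hk : 0 < k) (n : ℕ) (p : Fin (n + 3) → ℂ) (hp : IsConvexPolygon p)
    (hp' : IsCircumscribed p) (c : ℂ) (hpk : rotation k c '' region p = region p) (α : ℝ)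
    (i₀ : Fin (n + 3)) (h1 : ∀ j, ang p j = α ∨ ∃ l : ℕ, p j = (rotation k c)^[l] (p i₀))
    (h2 : α ≤ ang p i₀) (S : Set ℂ) (hS : S.Finite) (hSi : (interior (convexHull ℝ S)).Nonempty)
    (hSk : ∃ c' : ℂ, rotation k c' '' interior (convexHull ℝ S) = interior (convexHull ℝ S))
    (h : Isospectral (region p) (interior (convexHull ℝ S))) :
    ∃ φ : ℂ ≃ᵢ ℂ, φ '' region p = interior (convexHull ℝ S) := by
  obtain ⟨m, q, hq, hqS⟩ := Pool.Agent.Y459.HI.vs S hS hSi
  obtain ⟨c', hc'⟩ := hSk
  rw [← hqS] at hc' h ⊢
  refine Pool.Agent.H13HS.main_orb (c := c) (c' := c') hk hp hq hp' hpk hc' (fun j => ?_) h2 h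
  rcases h1 j with h3 | ⟨l, h3⟩
  · exact Or.inl h3
  · right
    refine ⟨l, ?_⟩
    rw [h3]
    exact Pool.Agent.H13HS.rt_iter _ _ l _

end Pool.Agent.Results.MP_5b0138_an.RotationOneOrbit
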