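import Pool.Agent.Q99.Rot2.Main

set_option autoImplicit false

/-!
# Isospectral convex polygons with a rotational symmetry of order `k` and at most `2 k` vertices

Let `k ≥ 1`. Two convex polygons with the same Dirichlet spectrum are congruent if each of them is
mapped onto itself by a rotation by the angle `2 π / k` and has at most `2 k` vertices. For `k = 2`
these are the parallelograms.
-/

namespace Pool.Agent.Results.MP_5b0138_an.RotationTwoOrbits

open Complex Set
open Pool.Agent.W780.PG (IsConvexPolygon region)
open Pool.Agent.W703.GP (Isospectral)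

/-- The set `Ω` is mapped onto itself by the rotation by the angle `2 π / k` about some point. -/
def HasRotation (k : ℕ) (Ω : Set ℂ) : Prop :=
  ∃ c : ℂ, (fun z => c + exp (2 * Real.pi * I / k) * (z - c)) '' Ω = Ω

theorem result (k : ℕ) (hk : 0 < k) (n m : ℕ) (p : Fin (n + 3) → ℂ) (q : Fin (m + 3) → ℂ)
    (hp : IsConvexPolygon p) (hq : IsConvexPolygon q) (hpk : HasRotation k (region p))
    (hqk : HasRotation k (region q)) (hn : n + 3 ≤ 2 * k) (hm : m + 3 ≤ 2 * k)
    (h : Isospectral (region p) (region q)) : ∃ φ : ℂ ≃ᵢ ℂ, φ '' region p = region q :=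
  Q99.Rot2.main hk hp hq hpk hqk hn hm h

end Pool.Agent.Results.MP_5b0138_an.RotationTwoOrbits
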